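import Pool.Agent.Helper80.PR.Group
import Pool.Agent.Helper80.PR.Main

/-!
# A negative answer to the question on parallel nilpotent tensors (MP_4926dc_gt)

The closed manifold is `S³ × S¹ × S¹ × S¹` with the neutral metric `∑ i, (α i ⊗ β i + β i ⊗ α i)`,
where `α i` are the left invariant one-forms of the unit quaternions `S³` and `β i` the angular
forms of the three circles; this is a compact quotient of the cotangent group `T^* SU(2)` with its
bi-invariant metric. The tensor is `A (e i) = f i`, `A (f i) = 0` in the dual frame.
The curvature kills every local parallel vector field, so neither the manifold nor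
any covering has one.
-/

open Bundle VectorField Set
open scoped Manifold ContDiff Topology

set_option autoImplicit false

namespace Pool.Agent.Results.MP_4926dc_gt.NoNullField

open Pool.Agent.Helper80.PR Pool.Agent.Helper80.PR.Group

theorem coframing : Coframing (I := J) (M := G) A B e f where
  A_smooth := A_smooth
  B_smooth := B_smooth
  e_smooth := e_smooth
  f_smooth := f_smooth
  Ae := Ae
  Af := Af
  Be := Be
  Bf := Bf
  expand := expand
  bee := bee
  bef := bef
  bff := bff

/-- **Negative answer to the question.** There is a closed (compact, connected, Hausdorff,
boundaryless, finite-dimensional, smooth) pseudo-Riemannian manifold `(M, g)` that carries a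
nonzero self-adjoint parallel nilpotent `(1,1)`-tensor field, such that neither `(M, g)` nor any
of its double covers carries a nonzero parallel light-like vector field. (Every double cover has a
Levi-Civita connection in the sense used here, so the last clause is not vacuous.) -/
theorem result :
    ∃ (E : Type) (_ : NormedAddCommGroup E) (_ : NormedSpace ℝ E) (_ : FiniteDimensional ℝ E)
      (H : Type) (_ : TopologicalSpace H) (I : ModelWithCorners ℝ E H) (_ : I.Boundaryless)
      (M : Type) (_ : TopologicalSpace M) (_ : ChartedSpace H M) (_ : IsManifold I ∞ M)
      (_ : CompactSpace M) (_ : T2Space M) (_ : ConnectedSpace M) (g : PseudoMetric I M),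
      CarriesNilpotentTensor g ∧ ¬ CarriesNullParallelField g ∧
      ∀ (E' : Type) (_ : NormedAddCommGroup E') (_ : NormedSpace ℝ E')
        (_ : FiniteDimensional ℝ E') (H' : Type) (_ : TopologicalSpace H')
        (I' : ModelWithCorners ℝ E' H') (M' : Type) (_ : TopologicalSpace M')
        (_ : ChartedSpace H' M') (_ : IsManifold I' ∞ M') (g' : PseudoMetric I' M') (p : M' → M),
        IsDoubleCover g' g p →
          (∃ cov : CovariantDerivative I' E' (TangentSpace I' : M' → Type _),
            IsLeviCivita g' cov) ∧
          ¬ CarriesNullParallelField g' := by
  exact ⟨EE, inferInstance, inferInstance, inferInstance, _, inferInstance, J, inferInstance, G,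
    inferInstance, inferInstance, inferInstance, inferInstance, inferInstance, inferInstance,
    mkMetric coframing, carries_of_coframing coframing 1,
    not_carries_of_framing (mkFraming coframing),
    fun E' _ _ _ H' _ I' M' _ _ _ g' p hp => cover_of_framing (mkFraming coframing) hp⟩

end Pool.Agent.Results.MP_4926dc_gt.NoNullField
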